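import Pool.Agent.Helper84.SPN.St

set_option autoImplicit false

namespace Pool.Agent.Helper10.SPN

open Pool.Agent.Helper84.SPN Pool.Agent.Helper75.MX

variable {m : ℕ} {F : Type} [Field F]

lemma dec_om_e0 (v : VV (m + 1) F) : om (e0 m F) v = v.2 0 := by
  have h : ∀ i : Fin (m + 1), (e0 m F).1 i * v.2 i - (e0 m F).2 i * v.1 i =
      if i = 0 then v.2 0 else 0 := by
    intro i
    by_cases hi : i = 0
    · rw [if_pos hi, hi]
      simp [e0]
    · rw [if_neg hi]
      simp [e0, Pi.single_eq_of_ne hi]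
  rw [om, Finset.sum_congr rfl (fun i _ => h i), Finset.sum_ite_eq' Finset.univ 0,
    if_pos (Finset.mem_univ _)]

lemma dec_om_f0 (v : VV (m + 1) F) : om (f0 m F) v = -v.1 0 := by
  have h : ∀ i : Fin (m + 1), (f0 m F).1 i * v.2 i - (f0 m F).2 i * v.1 i =
      if i = 0 then -v.1 0 else 0 := by
    intro i
    by_cases hi : i = 0
    · rw [if_pos hi, hi]
      simp [f0]
    · rw [if_neg hi]
      simp [f0, Pi.single_eq_of_ne hi]
  rw [om, Finset.sum_congr rfl (fun i _ => h i), Finset.sum_ite_eq' Finset.univ 0,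
    if_pos (Finset.mem_univ _)]

lemma dec_om_right (v : VV (m + 1) F) : om v (f0 m F) = v.1 0 := by
  have h : ∀ i : Fin (m + 1), v.1 i * (f0 m F).2 i - v.2 i * (f0 m F).1 i =
      if i = 0 then v.1 0 else 0 := by
    intro i
    by_cases hi : i = 0
    · rw [if_pos hi, hi]
      simp [f0]
    · rw [if_neg hi]
      simp [f0, Pi.single_eq_of_ne hi]
  rw [om, Finset.sum_congr rfl (fun i _ => h i), Finset.sum_ite_eq' Finset.univ 0,
    if_pos (Finset.mem_univ _)]

/-- SPN module DEC -/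
theorem hDEC (hRRR : StRRR) : StDEC := by
  intro m F _ g hg
  obtain ⟨r, hr⟩ := hRRR m F
  set w : VV (m + 1) F := g.1 (f0 m F) with hw
  have hw2 : w.2 0 = 1 := by
    have h1 : om (g.1 (e0 m F)) (g.1 (f0 m F)) = om (e0 m F) (f0 m F) := g.2 _ _
    rw [hg, ← hw, dec_om_e0, dec_om_e0] at h1
    rw [h1]
    simp [f0]
  set u : VV (m + 1) F := w - f0 m F - w.1 0 • e0 m F with hu
  have hu2 : u.2 0 = 0 := by
    rw [hu]
    simp [f0, e0, hw2]
  have hu1 : u.1 0 = 0 := by
    rw [hu]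
    simp [f0, e0]
  have he : om (e0 m F) u = 0 := by rw [dec_om_e0, hu2]
  have hf : om (f0 m F) u = 0 := by rw [dec_om_f0, hu1, neg_zero]
  obtain ⟨h1, h2, -⟩ := hr u (w.1 0) he hf
  have hre : (r u (w.1 0)).1 (e0 m F) = e0 m F := h1.1
  have hrf : (r u (w.1 0)).1 (f0 m F) = w := by
    have h3 : om (e0 m F) (f0 m F) = 1 := by
      rw [dec_om_e0]
      simp [f0]
    rw [h2, h3, dec_om_right u, hu1, zero_smul, add_zero, one_smul, hu]
    abel
  refine ⟨r u (w.1 0), h1, (r u (w.1 0))⁻¹ * g, ⟨?_, ?_⟩, ?_⟩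
  · change (r u (w.1 0)).1.symm (g.1 (e0 m F)) = e0 m F
    rw [hg, LinearEquiv.symm_apply_eq]
    exact hre.symm
  · change (r u (w.1 0)).1.symm (g.1 (f0 m F)) = f0 m F
    rw [LinearEquiv.symm_apply_eq]
    exact hrf.symm
  · rw [mul_inv_cancel_left]

end Pool.Agent.Helper10.SPN
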